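import Mathlib

/-!
# A Leonard triple without the exchanging antiautomorphism

Over the rational numbers there is a Leonard triple `A, B, C` on a space of dimension 2 such that no
antiautomorphism of the algebra of all linear maps sends `[A, B]` to a scalar multiple of `[A, C]`.
-/

namespace Pool.Agent.Results.MP_f77be9_al.NoAntiautomorphism

open Matrix

variable {K : Type} [Field K] {n : ℕ}

/-- Irreducible tridiagonal matrices. -/
def IrredTridiag (M : Matrix (Fin n) (Fin n) K) : Prop :=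
  (∀ i j : Fin n, (i : ℕ) + 1 < j ∨ (j : ℕ) + 1 < i → M i j = 0) ∧
  ∀ i j : Fin n, (i : ℕ) + 1 = j ∨ (j : ℕ) + 1 = i → M i j ≠ 0

/-- Some basis of `K ^ n` (the columns of an invertible matrix `P`) makes `A` diagonal and both
`B`, `C` irreducible tridiagonal. -/
def CommonBasis (A B C : Matrix (Fin n) (Fin n) K) : Prop :=
  ∃ P : GL (Fin n) K, (∃ v, P⁻¹.val * A * P.val = diagonal v) ∧
    IrredTridiag (P⁻¹.val * B * P.val) ∧ IrredTridiag (P⁻¹.val * C * P.val)

/-- Leonard triples on `K ^ n`. -/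
def LeonardTriple (A B C : Matrix (Fin n) (Fin n) K) : Prop :=
  CommonBasis A B C ∧ CommonBasis B C A ∧ CommonBasis C A B

/-- Antiautomorphisms of the algebra of `n × n` matrices. -/
def IsAntiauto (s : Matrix (Fin n) (Fin n) K ≃ₗ[K] Matrix (Fin n) (Fin n) K) : Prop :=
  ∀ M N, s (M * N) = s N * s M

lemma anti_one (s : Matrix (Fin n) (Fin n) K ≃ₗ[K] Matrix (Fin n) (Fin n) K)
    (hs : IsAntiauto s) : s 1 = 1 := by
  obtain ⟨M, hM⟩ := s.surjective 1
  have h := hs M 1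
  rw [Matrix.mul_one, hM, Matrix.mul_one] at h
  exact h.symm

/-- The first map. -/
def X : Matrix (Fin 2) (Fin 2) ℚ := !![1, 0; 0, 0]
/-- The second map. -/
def Y : Matrix (Fin 2) (Fin 2) ℚ := !![0, 1; 1, 0]
/-- The third map. -/
def Z : Matrix (Fin 2) (Fin 2) ℚ := !![7, 4; 2, 0]

/-- The eigenbasis of `Y`. -/
def PY : Matrix (Fin 2) (Fin 2) ℚ := !![1, 1; 1, -1]
/-- The inverse. -/
def QY : Matrix (Fin 2) (Fin 2) ℚ := !![1/2, 1/2; 1/2, -1/2]
/-- The eigenbasis of `Z`. -/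
def PZ : Matrix (Fin 2) (Fin 2) ℚ := !![4, 1; 1, -2]
/-- The inverse. -/
def QZ : Matrix (Fin 2) (Fin 2) ℚ := !![2/9, 1/9; 1/9, -4/9]

/-- An invertible matrix from a matrix and its inverse. -/
def mkGL (P Q : Matrix (Fin 2) (Fin 2) ℚ) (h : P * Q = 1) : GL (Fin 2) ℚ :=
  ⟨P, Q, h, mul_eq_one_comm.mp h⟩

lemma tri_of (M : Matrix (Fin 2) (Fin 2) ℚ) (h3 : M 0 1 ≠ 0) (h4 : M 1 0 ≠ 0) :
    IrredTridiag M := by
  constructor
  · intro i j hij
    fin_cases i <;> fin_cases j <;> simp at hij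
  · intro i j hij
    fin_cases i <;> fin_cases j <;> simp at hij ⊢ <;> assumption

lemma hY : PY * QY = 1 := by
  ext i j
  fin_cases i <;> fin_cases j <;> simp [PY, QY, mul_apply, Fin.sum_univ_two] <;> norm_num

lemma hZ : PZ * QZ = 1 := by
  ext i j
  fin_cases i <;> fin_cases j <;> simp [PZ, QZ, mul_apply, Fin.sum_univ_two] <;> norm_num

lemma triple : LeonardTriple X Y Z := by
  refine ⟨⟨1, ⟨![1, 0], ?_⟩, ?_, ?_⟩, ⟨mkGL PY QY hY, ⟨![1, -1], ?_⟩, ?_, ?_⟩,
    ⟨mkGL PZ QZ hZ, ⟨![8, -1], ?_⟩, ?_, ?_⟩⟩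
  · have h : ((1 : GL (Fin 2) ℚ)⁻¹.val * X * (1 : GL (Fin 2) ℚ).val) = X := by simp
    rw [h]
    ext i j
    fin_cases i <;> fin_cases j <;> simp [X]
  · have h : ((1 : GL (Fin 2) ℚ)⁻¹.val * Y * (1 : GL (Fin 2) ℚ).val) = Y := by simp
    rw [h]
    apply tri_of <;> simp [Y]
  · have h : ((1 : GL (Fin 2) ℚ)⁻¹.val * Z * (1 : GL (Fin 2) ℚ).val) = Z := by simp
    rw [h]
    apply tri_of <;> simp [Z]
  · show QY * Y * PY = _
    ext i j
    fin_cases i <;> fin_cases j <;> simp [PY, QY, Y, mul_apply, Fin.sum_univ_two] <;> norm_num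
  · show IrredTridiag (QY * Z * PY)
    apply tri_of <;> simp [PY, QY, Z, mul_apply, Fin.sum_univ_two] <;> norm_num
  · show IrredTridiag (QY * X * PY)
    apply tri_of <;> simp [PY, QY, X, mul_apply, Fin.sum_univ_two]
  · show QZ * Z * PZ = _
    ext i j
    fin_cases i <;> fin_cases j <;> simp [PZ, QZ, Z, mul_apply, Fin.sum_univ_two] <;> norm_num
  · show IrredTridiag (QZ * X * PZ)
    apply tri_of <;> simp [PZ, QZ, X, mul_apply, Fin.sum_univ_two]
  · show IrredTridiag (QZ * Y * PZ)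
    apply tri_of <;> simp [PZ, QZ, Y, mul_apply, Fin.sum_univ_two] <;> norm_num

lemma sqY : (X * Y - Y * X) * (X * Y - Y * X) = (-1 : ℚ) • (1 : Matrix (Fin 2) (Fin 2) ℚ) := by
  ext i j
  fin_cases i <;> fin_cases j <;> simp [X, Y, mul_apply, Fin.sum_univ_two]

lemma sqZ : (X * Z - Z * X) * (X * Z - Z * X) = (-8 : ℚ) • (1 : Matrix (Fin 2) (Fin 2) ℚ) := by
  ext i j
  fin_cases i <;> fin_cases j <;> simp [X, Z, mul_apply, Fin.sum_univ_two] <;> norm_num

/-- No antiautomorphism sends `[X, Y]` to a multiple of `[X, Z]`. -/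
lemma no_anti (s : Matrix (Fin 2) (Fin 2) ℚ ≃ₗ[ℚ] Matrix (Fin 2) (Fin 2) ℚ) (hs : IsAntiauto s)
    (c : ℚ) (hc : s (X * Y - Y * X) = c • (X * Z - Z * X)) : False := by
  have h1 := hs (X * Y - Y * X) (X * Y - Y * X)
  rw [sqY, hc, map_smul, anti_one s hs, Matrix.smul_mul, Matrix.mul_smul, sqZ] at h1
  have h2 := congrFun (congrFun h1 0) 0
  simp only [Matrix.smul_apply, Matrix.one_apply_eq, smul_eq_mul, mul_one] at h2
  have h3 : (8 : ℚ) * c ^ 2 = 1 := by linarith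
  -- `8 c² = 1` would make `2` a rational square
  have h4 : IsSquare (2 : ℚ) := ⟨4 * c, by linarith [h3]⟩
  have h5 : IsSquare (2 : ℕ) := by exact_mod_cast (Rat.isSquare_natCast_iff (n := 2)).mp h4
  obtain ⟨r, hr⟩ := h5
  have hr2 : r < 2 := by nlinarith
  interval_cases r <;> omega

/-- **The exchanging antiautomorphism need not exist.**  It is false that for every field `K`, every
Leonard triple on `K ^ n` (`n > 0`) and every ordering `x, y, z` of it there is an antiautomorphism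
`s` with `s x = x` such that `s [x,y]` is a multiple of `[x,z]` and `s [x,z]` one of `[x,y]`. -/
theorem result : ¬ ∀ (K : Type) (_ : Field K) (n : ℕ) (f : Fin 3 → Matrix (Fin n) (Fin n) K),
    0 < n → LeonardTriple (f 0) (f 1) (f 2) → ∀ p : Equiv.Perm (Fin 3),
      ∃ s : Matrix (Fin n) (Fin n) K ≃ₗ[K] Matrix (Fin n) (Fin n) K, IsAntiauto s ∧
        s (f (p 0)) = f (p 0) ∧
        (∃ c : K, s (f (p 0) * f (p 1) - f (p 1) * f (p 0)) =
          c • (f (p 0) * f (p 2) - f (p 2) * f (p 0))) ∧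
        ∃ c : K, s (f (p 0) * f (p 2) - f (p 2) * f (p 0)) =
          c • (f (p 0) * f (p 1) - f (p 1) * f (p 0)) := by
  intro h
  obtain ⟨s, hs, _, ⟨c, hc⟩, _⟩ := h ℚ inferInstance 2 ![X, Y, Z] (by norm_num) triple 1
  exact no_anti s hs c hc

end Pool.Agent.Results.MP_f77be9_al.NoAntiautomorphism
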